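import Pool.Agent.Lib_helper2.QG.Final

/-!
# No polynomial time algorithm computes closed quasigeodesics exactly

There are convex polyhedra `P n` in `ℝ³` with rational vertices, of input size polynomial in `n`,
such that every closed quasigeodesic on the surface of `P n` (simple or not) crosses some edge at
a position whose algebraic degree is larger than `2 ^ n`. So every exact output, in which crossing
positions are given by defining integer polynomials and isolating intervals, has length larger
than `2 ^ n`, and so has every output in which a position is given as an element of a number field.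
-/

open QG

namespace Pool.Agent.Results.MP_18bf68_lc.NoPolyTime

/-- There is a family of convex polyhedra of polynomial size, such that on the `n`-th polyhedron
every closed quasigeodesic crosses an edge transversally at a position of algebraic degree larger
than `2 ^ n`, so that every exact output has length larger than `2 ^ n`. -/
theorem result : ∃ C : ℕ, ∀ n : ℕ, ∃ P : Poly, P.inputSize ≤ C * (n + 1) ^ 12 ∧
    ∀ γ : ClosedQuasigeodesic P,
      (∃ (i : ZMod γ.N) (a b : Fin 3 → ℚ) (t : ℝ),
        IsEdge P a b ∧ 0 < t ∧ t < 1 ∧ γ.pt i = toE a + t • (toE b - toE a) ∧
        (∀ s : ℝ, γ.pt (i + 1) ≠ toE a + s • (toE b - toE a)) ∧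
        (∀ s : ℝ, γ.pt (i - 1) ≠ toE a + s • (toE b - toE a)) ∧
        HighDeg (2 ^ n) t ∧ ∀ j, a j ≠ b j → HighDeg (2 ^ n) (γ.pt i j)) ∧
      ∀ l : List Item, IsOutput P γ l → 2 ^ n < outputLength l :=
  family

/-- The negated form of the question: no function, hence no algorithm, gives for every convex
polyhedron an exact description, of length polynomially bounded in the input size, of a closed
quasigeodesic. -/
theorem no_polynomial_output (k : ℕ) : ¬ ∃ out : Poly → List Item, ∀ P : Poly,
    (∃ γ : ClosedQuasigeodesic P, IsOutput P γ (out P)) ∧
    outputLength (out P) ≤ P.inputSize ^ k + k :=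
  no_output k

end Pool.Agent.Results.MP_18bf68_lc.NoPolyTime
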